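import Pool.Agent.E8helper29.Zn.Stm3

/-!
# Project ZU, piece U7: a discrete version of the mixture
-/

set_option autoImplicit false

namespace Pool.Agent.E8helper70.ZU

open MeasureTheory ProbabilityTheory Pool.Agent.Helper649.Zono Pool.Agent.E8helper29.Zn
open scoped RealInnerProductSpace Nat NNReal

variable {n : ℕ}

/-- the cells of a finite list of centres -/
def cel {M : ℕ} (w : Fin M → E n) (e : ℝ) (j : Fin M) : Set (E n) :=
  Metric.ball (w j) e \ ⋃ i : Fin M, ⋃ _ : i < j, Metric.ball (w i) e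

lemma cel_meas {M : ℕ} (w : Fin M → E n) (e : ℝ) (j : Fin M) : MeasurableSet (cel w e j) := by
  apply MeasurableSet.diff Metric.isOpen_ball.measurableSet
  exact MeasurableSet.iUnion fun i => MeasurableSet.iUnion fun _ => Metric.isOpen_ball.measurableSet

lemma cel_disj {M : ℕ} (w : Fin M → E n) (e : ℝ) : Pairwise (Function.onFun Disjoint (cel w e)) := by
  intro i j hij
  rw [Function.onFun, Set.disjoint_left]
  rintro x ⟨hx1, hx2⟩ ⟨hx3, hx4⟩
  rw [Set.mem_iUnion] at hx2 hx4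
  rcases lt_or_gt_of_ne hij with h | h
  · exact hx4 ⟨i, Set.mem_iUnion.2 ⟨h, hx1⟩⟩
  · exact hx2 ⟨j, Set.mem_iUnion.2 ⟨h, hx3⟩⟩

lemma cel_cover {M : ℕ} (w : Fin M → E n) (e : ℝ) (x : E n) (h : ∃ j, x ∈ Metric.ball (w j) e) :
    x ∈ ⋃ j, cel w e j := by
  classical
  obtain ⟨j, hj, hmin⟩ := Finset.exists_min_image (Finset.univ.filter fun j => x ∈ Metric.ball (w j) e) id
    (by obtain ⟨j, hj⟩ := h; exact ⟨j, by simpa using hj⟩)
  rw [Finset.mem_filter] at hj
  refine Set.mem_iUnion.2 ⟨j, hj.2, ?_⟩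
  intro hx
  rw [Set.mem_iUnion] at hx
  obtain ⟨i, hi⟩ := hx
  rw [Set.mem_iUnion] at hi
  obtain ⟨hij, hxi⟩ := hi
  have h2 := hmin i (Finset.mem_filter.2 ⟨Finset.mem_univ i, hxi⟩)
  exact absurd hij (not_lt.2 h2)

lemma inner_diff (x u v : E n) : |(|⟪x, u⟫| - |⟪x, v⟫|)| ≤ ‖x‖ * ‖u - v‖ := by
  refine (abs_abs_sub_abs_le_abs_sub _ _).trans ?_
  rw [← inner_sub_right]
  exact abs_real_inner_le_norm x (u - v)

theorem u7 (h : StmR1) : StmR2 := by
  obtain ⟨C, hC, H⟩ := h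
  refine ⟨2 * C, by positivity, ?_⟩
  intro n η hn hη0 hη1
  obtain ⟨μ₀, hfin, hae, hint, hmass, hband⟩ := H n hn
  have hn0 : (1 : ℝ) ≤ n := by exact_mod_cast hn
  have hCn : 0 < C * n := by positivity
  obtain ⟨e, he⟩ : ∃ e, e = η / (1 + C * n) := ⟨_, rfl⟩
  have he0 : 0 < e := by rw [he]; positivity
  have he1 : e ≤ η := by
    rw [he, div_le_iff₀ (by positivity)]
    nlinarith
  have he2 : e * (C * n) ≤ η := by
    rw [he, div_mul_eq_mul_div, div_le_iff₀ (by positivity)]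
    nlinarith
  obtain ⟨t, ht1, ht2, ht3⟩ := (isCompact_sphere (0 : E n) 1).finite_cover_balls he0
  obtain ⟨M, hM⟩ : ∃ M, M = ht2.toFinset.card := ⟨_, rfl⟩
  obtain ⟨w, hw⟩ : ∃ w : Fin M → E n, ∀ x, x ∈ t ↔ ∃ j, w j = x := by
    subst hM
    refine ⟨fun j => (ht2.toFinset.equivFin.symm j : E n), fun x => ⟨fun hx => ?_, ?_⟩⟩
    · exact ⟨ht2.toFinset.equivFin ⟨x, ht2.mem_toFinset.2 hx⟩, by simp⟩
    · rintro ⟨j, rfl⟩
      exact ht2.mem_toFinset.1 (ht2.toFinset.equivFin.symm j).2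
  have hw1 : ∀ j, ‖w j‖ = 1 := by
    intro j
    have := ht1 ((hw (w j)).2 ⟨j, rfl⟩)
    rwa [mem_sphere_zero_iff_norm] at this
  have hcov : ∀ᵐ u ∂μ₀, u ∈ ⋃ j, cel w e j := by
    filter_upwards [hae] with u hu
    apply cel_cover
    have h1 := ht3 (mem_sphere_zero_iff_norm.2 hu)
    rw [Set.mem_iUnion₂] at h1
    obtain ⟨x, hx, hux⟩ := h1
    obtain ⟨j, hj⟩ := (hw x).1 hx
    exact ⟨j, by rw [hj]; exact hux⟩
  have hdist : ∀ j u, u ∈ cel w e j → ‖u - w j‖ ≤ e := by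
    intro j u hu
    have := hu.1
    rw [mem_ball_iff_norm] at this
    exact this.le
  have hsumset : ∀ F : Finset (Fin M), ∑ j ∈ F, μ₀.real (cel w e j) = μ₀.real (⋃ j ∈ F, cel w e j) := by
    intro F
    rw [measureReal_biUnion_finset (fun i _ j _ hij => cel_disj w e hij) (fun j _ => cel_meas w e j)]
  have hsum : ∑ j, μ₀.real (cel w e j) ≤ C * n := by
    rw [hsumset]
    exact (measureReal_mono (Set.subset_univ _)).trans hmass
  refine ⟨M, w, fun j => μ₀.real (cel w e j), hw1, fun j => measureReal_nonneg, ?_, ?_, ?_⟩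
  · calc ∑ j, μ₀.real (cel w e j) ≤ C * n := hsum
      _ ≤ 2 * C * n := by nlinarith
  · intro x
    have hcont : Continuous fun u : E n => |⟪x, u⟫| := by fun_prop
    have hfi : Integrable (fun u : E n => |⟪x, u⟫|) μ₀ := by
      refine (integrable_const ‖x‖).mono' hcont.aestronglyMeasurable ?_
      filter_upwards [hae] with u hu
      rw [Real.norm_eq_abs, abs_abs]
      have := abs_real_inner_le_norm x u
      rwa [hu, mul_one] at this
    have h1 : ‖x‖ = ∑ j, ∫ u in cel w e j, |⟪x, u⟫| ∂μ₀ := by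
      rw [← hint x, ← integral_iUnion_fintype (fun j => cel_meas w e j) (cel_disj w e)
        (fun j => hfi.integrableOn), Measure.restrict_eq_self_of_ae_mem hcov]
    have h2 : ∑ j, μ₀.real (cel w e j) * |⟪x, w j⟫| - ‖x‖ =
        ∑ j, ∫ u in cel w e j, (|⟪x, w j⟫| - |⟪x, u⟫|) ∂μ₀ := by
      conv_lhs => rw [h1]
      rw [← Finset.sum_sub_distrib]
      apply Finset.sum_congr rfl
      intro j _
      rw [integral_sub (integrable_const _) hfi.integrableOn, setIntegral_const, smul_eq_mul]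
    rw [h2]
    calc |∑ j, ∫ u in cel w e j, (|⟪x, w j⟫| - |⟪x, u⟫|) ∂μ₀|
        ≤ ∑ j, |∫ u in cel w e j, (|⟪x, w j⟫| - |⟪x, u⟫|) ∂μ₀| := Finset.abs_sum_le_sum_abs _ _
      _ ≤ ∑ j, (‖x‖ * e) * μ₀.real (cel w e j) := by
          apply Finset.sum_le_sum
          intro j _
          rw [← Real.norm_eq_abs]
          apply norm_setIntegral_le_of_norm_le_const (measure_lt_top _ _)
          intro u hu
          rw [Real.norm_eq_abs]
          refine (inner_diff x (w j) u).trans ?_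
          apply mul_le_mul_of_nonneg_left _ (norm_nonneg x)
          rw [norm_sub_rev]
          exact hdist j u hu
      _ = (‖x‖ * e) * ∑ j, μ₀.real (cel w e j) := by rw [Finset.mul_sum]
      _ ≤ (‖x‖ * e) * (C * n) := mul_le_mul_of_nonneg_left hsum (by positivity)
      _ = ‖x‖ * (e * (C * n)) := by ring
      _ ≤ ‖x‖ * η := mul_le_mul_of_nonneg_left he2 (norm_nonneg x)
      _ = η * ‖x‖ := by ring
  · intro v hv δ hδ
    rw [hsumset]
    have h1 := hband v hv (2 * δ) (by linarith)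
    refine (measureReal_mono ?_).trans (h1.trans (le_of_eq (by ring)))
    intro u hu
    rw [Set.mem_iUnion₂] at hu
    obtain ⟨j, hj, huj⟩ := hu
    rw [Finset.mem_filter] at hj
    rw [Set.mem_ofPred_eq]
    have h2 := inner_diff v u (w j)
    rw [hv, one_mul] at h2
    have h3 := hdist j u huj
    have h4 := le_abs_self (|⟪v, u⟫| - |⟪v, w j⟫|)
    linarith [hj.2]

end Pool.Agent.E8helper70.ZU
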